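import Pool.Agent.V11179.SubwordSeqAsymp

/-!
The number `a_2(n)` of distinct subword complexity sequences of binary words of length `n` satisfies
`a_2(n) ≤ exp (78 n^(2/3) log (n+2))`, so that `a_2(n) / 2^(n/2)` tends to `0` (and not to `1`).
-/

namespace Pool.Agent.Results.MP_d47c21_co.BinaryDisproof

open Filter Topology

/-- the number of distinct subwords (contiguous blocks) of length `m` of `w` -/
noncomputable def subwordCount {A : Type} (w : List A) (m : ℕ) : ℕ :=
  {u : List A | u <:+: w ∧ u.length = m}.ncard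

/-- `a_k(n)`, the number of distinct vectors `(p_w(1), ..., p_w(n))`, where `w` ranges over the
words of length `n` over an alphabet with `k` letters -/
noncomputable def seqCount (k n : ℕ) : ℕ :=
  {p : Fin n → ℕ | ∃ w : List (Fin k), w.length = n ∧
    ∀ i : Fin n, p i = subwordCount w ((i : ℕ) + 1)}.ncard

theorem result :
    (¬ Tendsto (fun n : ℕ => (seqCount 2 n : ℝ) / 2 ^ ((n : ℝ) / 2)) atTop (𝓝 1)) ∧
    Tendsto (fun n : ℕ => (seqCount 2 n : ℝ) / 2 ^ ((n : ℝ) / 2)) atTop (𝓝 0) ∧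
    (∀ n : ℕ, 1 ≤ n →
      (seqCount 2 n : ℝ) ≤ Real.exp (78 * (n : ℝ) ^ (2 / 3 : ℝ) * Real.log (n + 2))) := by
  have h1 : ∀ n : ℕ, 1 ≤ n →
      (seqCount 2 n : ℝ) ≤ Real.exp (78 * (n : ℝ) ^ (2 / 3 : ℝ) * Real.log (n + 2)) := by
    intro n hn
    apply V11179.SubwordSeq.exp_bound n hn
    intro q hq
    exact V11179.SubwordSeq.seqs_ncard_le (Fin 2) n q hq
  have h2 : Tendsto (fun n : ℕ => (seqCount 2 n : ℝ) / 2 ^ ((n : ℝ) / 2)) atTop (𝓝 0) := by
    have h := V11179.SubwordSeq.ratio_tendsto (seqCount 2) h1 (2 ^ (1 / 2 : ℝ))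
      (Real.one_lt_rpow (by norm_num) (by norm_num)) 1 one_pos
    refine h.congr (fun n => ?_)
    rw [← Real.rpow_mul (by norm_num), one_mul]
    congr 2
    ring
  refine ⟨?_, h2, h1⟩
  intro h
  have := tendsto_nhds_unique h h2
  norm_num at this

end Pool.Agent.Results.MP_d47c21_co.BinaryDisproof
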